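import Pool.Agent.Helper82.EN.Basic

set_option autoImplicit false

/-! # ENCODING BY TM: two partitions of an interval with compatible overlaps -/

namespace Pool.Agent.Helper82.EN

/-- The hypotheses of `ST_MATCH`. -/
structure match_H (Λ β : ℤ) (ell : ℕ → ℤ) (x y : ℤ → ℤ) (cx cy : ℤ → ℕ) (i₀ i₁ j₀ j₁ : ℤ)
    (r s : ℤ) : Prop where
  hβ : 0 < β
  hΛ : 100 * β ≤ Λ
  e0 : ell 0 = Λ
  e1 : ∀ c c' : ℕ, c < c' → c' ≤ 4 → 100 * ell c ≤ ell c'
  cx4 : ∀ i, cx i ≤ 4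
  cy4 : ∀ j, cy j ≤ 4
  pr : ∀ i, i₀ ≤ i → i ≤ i₁ → (cx i ≠ 0 ↔ (3 : ℤ) ∣ i - r)
  ps : ∀ j, j₀ ≤ j → j ≤ j₁ → (cy j ≠ 0 ↔ (3 : ℤ) ∣ j - s)
  lx : ∀ i, i₀ ≤ i → i ≤ i₁ → ell (cx i) ≤ 6 * (x (i + 1) - x i) ∧ x (i + 1) - x i ≤ ell (cx i)
  my : ∀ j, j₀ ≤ j → j ≤ j₁ → y j ≤ y (j + 1)
  ly : ∀ j, j₀ ≤ j → j ≤ j₁ → x i₀ ≤ y j → y (j + 1) ≤ x (i₁ + 1) →
    ell (cy j) ≤ 6 * (y (j + 1) - y j) ∧ y (j + 1) - y j ≤ ell (cy j)
  a0 : y j₀ ≤ x i₀
  a1 : x (i₁ + 1) ≤ y (j₁ + 1)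
  a2 : j₀ ≤ j₁
  hA : ∀ i j, i₀ ≤ i → i + 2 ≤ i₁ → j₀ ≤ j → j ≤ j₁ →
    ¬ ∀ e : ℤ, 0 ≤ e → e ≤ 2 → β ≤ min (x (i + e + 1)) (y (j + 1)) - max (x (i + e)) (y j)
  hB : ∀ i j, i₀ ≤ i → i ≤ i₁ → j₀ ≤ j → j + 2 ≤ j₁ →
    ¬ ∀ e : ℤ, 0 ≤ e → e ≤ 2 → β ≤ min (x (i + 1)) (y (j + e + 1)) - max (x i) (y (j + e))

namespace match_H

variable {Λ β : ℤ} {ell : ℕ → ℤ} {x y : ℤ → ℤ} {cx cy : ℤ → ℕ} {i₀ i₁ j₀ j₁ : ℤ} {r s : ℤ}

theorem ell_long (H : match_H Λ β ell x y cx cy i₀ i₁ j₀ j₁ r s) (c : ℕ) (hc : c ≤ 4)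
    (h0 : c ≠ 0) : 100 * Λ ≤ ell c := by
  have := H.e1 0 c (by omega) hc
  rwa [H.e0] at this

theorem ell_ge (H : match_H Λ β ell x y cx cy i₀ i₁ j₀ j₁ r s) (c : ℕ) (hc : c ≤ 4) :
    Λ ≤ ell c := by
  by_cases h0 : c = 0
  · rw [h0, H.e0]
  · have := H.ell_long c hc h0
    have := H.hβ
    have := H.hΛ
    omega

theorem lenx (H : match_H Λ β ell x y cx cy i₀ i₁ j₀ j₁ r s) (i : ℤ) (h : i₀ ≤ i) (h' : i ≤ i₁) :
    Λ ≤ 6 * (x (i + 1) - x i) := (H.ell_ge _ (H.cx4 i)).trans (H.lx i h h').1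

theorem lenx_long (H : match_H Λ β ell x y cx cy i₀ i₁ j₀ j₁ r s) (i : ℤ) (h : i₀ ≤ i)
    (h' : i ≤ i₁) (hc : cx i ≠ 0) : 100 * Λ ≤ 6 * (x (i + 1) - x i) :=
  (H.ell_long _ (H.cx4 i) hc).trans (H.lx i h h').1

theorem lenx_short (H : match_H Λ β ell x y cx cy i₀ i₁ j₀ j₁ r s) (i : ℤ) (h : i₀ ≤ i)
    (h' : i ≤ i₁) (hc : cx i = 0) : x (i + 1) - x i ≤ Λ := by
  have := (H.lx i h h').2
  rwa [hc, H.e0] at this

theorem xmono (H : match_H Λ β ell x y cx cy i₀ i₁ j₀ j₁ r s) (i : ℤ) (h : i₀ ≤ i) (n : ℕ)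
    (h' : i + n ≤ i₁ + 1) : x i ≤ x (i + n) := by
  induction n with
  | zero => simp
  | succ n ih =>
    have h1 := ih (by push_cast at h'; omega)
    have h2 := H.lenx (i + n) (by omega) (by push_cast at h'; omega)
    have h3 := H.hβ
    have h4 := H.hΛ
    have e : i + (n : ℤ) + 1 = i + ((n + 1 : ℕ) : ℤ) := by push_cast; ring
    rw [e] at h2
    omega

theorem xmono' (H : match_H Λ β ell x y cx cy i₀ i₁ j₀ j₁ r s) (i i' : ℤ) (h : i₀ ≤ i)
    (h' : i ≤ i') (h'' : i' ≤ i₁ + 1) : x i ≤ x i' := by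
  obtain ⟨n, hn⟩ := Int.le.dest h'
  rw [← hn]
  exact H.xmono i h n (by omega)

theorem ymono (H : match_H Λ β ell x y cx cy i₀ i₁ j₀ j₁ r s) (j : ℤ) (h : j₀ ≤ j) (n : ℕ)
    (h' : j + n ≤ j₁ + 1) : y j ≤ y (j + n) := by
  induction n with
  | zero => simp
  | succ n ih =>
    have h1 := ih (by push_cast at h'; omega)
    have h2 := H.my (j + n) (by omega) (by push_cast at h'; omega)
    have e : j + (n : ℤ) + 1 = j + ((n + 1 : ℕ) : ℤ) := by push_cast; ring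
    rw [e] at h2
    omega

theorem ymono' (H : match_H Λ β ell x y cx cy i₀ i₁ j₀ j₁ r s) (j j' : ℤ) (h : j₀ ≤ j)
    (h' : j ≤ j') (h'' : j' ≤ j₁ + 1) : y j ≤ y j' := by
  obtain ⟨n, hn⟩ := Int.le.dest h'
  rw [← hn]
  exact H.ymono j h n (by omega)

/-- `hA` with the three overlaps written out. -/
theorem hA' (H : match_H Λ β ell x y cx cy i₀ i₁ j₀ j₁ r s) (i j : ℤ) (h1 : i₀ ≤ i)
    (h2 : i + 2 ≤ i₁) (h3 : j₀ ≤ j) (h4 : j ≤ j₁)
    (k0 : β ≤ min (x (i + 1)) (y (j + 1)) - max (x i) (y j))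
    (k1 : β ≤ min (x (i + 2)) (y (j + 1)) - max (x (i + 1)) (y j))
    (k2 : β ≤ min (x (i + 3)) (y (j + 1)) - max (x (i + 2)) (y j)) : False := by
  refine H.hA i j h1 h2 h3 h4 fun e he he' => ?_
  have : e = 0 ∨ e = 1 ∨ e = 2 := by omega
  rcases this with rfl | rfl | rfl
  · simpa using k0
  · have e1 : i + 1 + 1 = i + 2 := by ring
    rw [e1]
    exact k1
  · have e1 : i + 2 + 1 = i + 3 := by ring
    rw [e1]
    exact k2

/-- `hB` with the three overlaps written out. -/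
theorem hB' (H : match_H Λ β ell x y cx cy i₀ i₁ j₀ j₁ r s) (i j : ℤ) (h1 : i₀ ≤ i)
    (h2 : i ≤ i₁) (h3 : j₀ ≤ j) (h4 : j + 2 ≤ j₁)
    (k0 : β ≤ min (x (i + 1)) (y (j + 1)) - max (x i) (y j))
    (k1 : β ≤ min (x (i + 1)) (y (j + 2)) - max (x i) (y (j + 1)))
    (k2 : β ≤ min (x (i + 1)) (y (j + 3)) - max (x i) (y (j + 2))) : False := by
  refine H.hB i j h1 h2 h3 h4 fun e he he' => ?_
  have : e = 0 ∨ e = 1 ∨ e = 2 := by omega
  rcases this with rfl | rfl | rfl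
  · simpa using k0
  · have e1 : j + 1 + 1 = j + 2 := by ring
    rw [e1]
    exact k1
  · have e1 : j + 2 + 1 = j + 3 := by ring
    rw [e1]
    exact k2

/-- (1) a piece meeting `X_i` is inside. -/
theorem meet (H : match_H Λ β ell x y cx cy i₀ i₁ j₀ j₁ r s) (i j : ℤ) (h1 : i₀ + 3 ≤ i)
    (h2 : i + 3 ≤ i₁) (h3 : j₀ ≤ j) (h4 : j ≤ j₁) (k0 : y j < x (i + 1)) (k1 : x i < y (j + 1)) :
    x i₀ < y j ∧ y (j + 1) < x (i₁ + 1) ∧ j₀ < j ∧ j < j₁ := by
  have hβ := H.hβ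
  have hΛ := H.hΛ
  have A : x i₀ < y j := by
    by_contra hn
    have m := H.xmono' (i₀ + 3) i (by omega) h1 (by omega)
    have l0 := H.lenx i₀ le_rfl (by omega)
    have l1 := H.lenx (i₀ + 1) (by omega) (by omega)
    have l2 := H.lenx (i₀ + 2) (by omega) (by omega)
    rw [show i₀ + 1 + 1 = i₀ + 2 by ring] at l1
    rw [show i₀ + 2 + 1 = i₀ + 3 by ring] at l2
    exact H.hA' i₀ j le_rfl (by omega) h3 h4 (by omega) (by omega) (by omega)
  have B : y (j + 1) < x (i₁ + 1) := by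
    by_contra hn
    have m := H.xmono' (i + 1) (i₁ - 2) (by omega) (by omega) (by omega)
    have l0 := H.lenx (i₁ - 2) (by omega) (by omega)
    have l1 := H.lenx (i₁ - 1) (by omega) (by omega)
    have l2 := H.lenx i₁ (by omega) (by omega)
    rw [show i₁ - 2 + 1 = i₁ - 1 by ring] at l0
    rw [show i₁ - 1 + 1 = i₁ by ring] at l1
    refine H.hA' (i₁ - 2) j (by omega) (by omega) h3 h4 ?_ ?_ ?_
    · rw [show i₁ - 2 + 1 = i₁ - 1 by ring]
      omega
    · rw [show i₁ - 2 + 1 = i₁ - 1 by ring, show i₁ - 2 + 2 = i₁ by ring]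
      omega
    · rw [show i₁ - 2 + 2 = i₁ by ring, show i₁ - 2 + 3 = i₁ + 1 by ring]
      omega
  refine ⟨A, B, ?_, ?_⟩
  · rcases h3.lt_or_eq with h | h
    · exact h
    · have := H.a0
      rw [← h] at A
      omega
  · rcases h4.lt_or_eq with h | h
    · exact h
    · have := H.a1
      rw [h] at B
      omega

theorem leny (H : match_H Λ β ell x y cx cy i₀ i₁ j₀ j₁ r s) (j : ℤ) (h3 : j₀ ≤ j) (h4 : j ≤ j₁)
    (k0 : x i₀ ≤ y j) (k1 : y (j + 1) ≤ x (i₁ + 1)) : Λ ≤ 6 * (y (j + 1) - y j) :=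
  (H.ell_ge _ (H.cy4 j)).trans (H.ly j h3 h4 k0 k1).1

theorem leny_long (H : match_H Λ β ell x y cx cy i₀ i₁ j₀ j₁ r s) (j : ℤ) (h3 : j₀ ≤ j)
    (h4 : j ≤ j₁) (k0 : x i₀ ≤ y j) (k1 : y (j + 1) ≤ x (i₁ + 1)) (hc : cy j ≠ 0) :
    100 * Λ ≤ 6 * (y (j + 1) - y j) :=
  (H.ell_long _ (H.cy4 j) hc).trans (H.ly j h3 h4 k0 k1).1

theorem leny_short (H : match_H Λ β ell x y cx cy i₀ i₁ j₀ j₁ r s) (j : ℤ) (h3 : j₀ ≤ j)
    (h4 : j ≤ j₁) (k0 : x i₀ ≤ y j) (k1 : y (j + 1) ≤ x (i₁ + 1)) (hc : cy j = 0) :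
    y (j + 1) - y j ≤ Λ := by
  have := (H.ly j h3 h4 k0 k1).2
  rwa [hc, H.e0] at this

/-- two consecutive pieces are not both long -/
theorem not_both (H : match_H Λ β ell x y cx cy i₀ i₁ j₀ j₁ r s) (j : ℤ) (h3 : j₀ ≤ j)
    (h4 : j + 1 ≤ j₁) (hc : cy j ≠ 0) : cy (j + 1) = 0 := by
  by_contra hn
  have h1 := (H.ps j h3 (by omega)).1 hc
  have h2 := (H.ps (j + 1) (by omega) h4).1 hn
  omega

/-- (2) the long piece covering most of `X_i` -/
theorem cover (H : match_H Λ β ell x y cx cy i₀ i₁ j₀ j₁ r s) (i : ℤ) (h1 : i₀ + 3 ≤ i)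
    (h2 : i + 3 ≤ i₁) (hc : cx i ≠ 0) :
    ∃ j, j₀ < j ∧ j < j₁ ∧ x i₀ < y j ∧ y (j + 1) < x (i₁ + 1) ∧ cy j ≠ 0 ∧
      y j ≤ x i + Λ + 2 * β ∧ x (i + 1) - Λ - 2 * β ≤ y (j + 1) := by
  have hβ := H.hβ
  have hΛ := H.hΛ
  have hlong := H.lenx_long i (by omega) (by omega) hc
  -- the piece containing `x i`
  have hmx := H.xmono' i₀ i le_rfl (by omega) (by omega)
  obtain ⟨a, ⟨ha0, ha1, ha2⟩, hamax⟩ := Int.exists_greatest_of_bdd
    (P := fun j => j₀ ≤ j ∧ j ≤ j₁ ∧ y j ≤ x i) ⟨j₁, fun z hz => hz.2.1⟩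
    ⟨j₀, le_rfl, H.a2, H.a0.trans hmx⟩
  have ha3 : x i < y (a + 1) := by
    by_contra hn
    by_cases hj : a + 1 ≤ j₁
    · have := hamax (a + 1) ⟨by omega, hj, by omega⟩
      omega
    · have e : a = j₁ := by omega
      have h := H.a1
      rw [← e] at h
      have m := H.xmono' (i + 1) (i₁ + 1) (by omega) (by omega) le_rfl
      omega
  obtain ⟨b0, b1, b2, b3⟩ := H.meet i a h1 h2 ha0 ha1 (by omega) ha3
  have la := H.leny a ha0 ha1 b0.le b1.le
  have sa := H.leny_short a ha0 ha1 b0.le b1.le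
  -- case `y (a + 1) ≥ x (i + 1)`
  by_cases c1 : x (i + 1) ≤ y (a + 1)
  · refine ⟨a, b2, b3, b0, b1, ?_, by omega, by omega⟩
    intro h0
    have := sa h0
    omega
  push Not at c1
  -- piece `a + 1`
  obtain ⟨d0, d1, d2, d3⟩ := H.meet i (a + 1) h1 h2 (by omega) (by omega) c1 (by
    have := H.my (a + 1) (by omega) (by omega)
    omega)
  have lb := H.leny (a + 1) (by omega) (by omega) d0.le d1.le
  have sb := H.leny_short (a + 1) (by omega) (by omega) d0.le d1.le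
  have nab := H.not_both a ha0 (by omega)
  rw [show a + 1 + 1 = a + 2 by ring] at d1 lb sb
  by_cases c2 : x (i + 1) ≤ y (a + 2)
  · by_cases l0 : cy a = 0
    · by_cases l1 : cy (a + 1) = 0
      · have := sa l0
        have := sb l1
        omega
      · refine ⟨a + 1, by omega, by omega, d0, ?_, l1, ?_, ?_⟩
        · rw [show a + 1 + 1 = a + 2 by ring]
          exact d1
        · have := sa l0
          omega
        · rw [show a + 1 + 1 = a + 2 by ring]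
          omega
    · have l1 := nab l0
      have := sb l1
      exact ⟨a, b2, b3, b0, b1, l0, by omega, by omega⟩
  push Not at c2
  -- piece `a + 2`
  obtain ⟨f0, f1, f2, f3⟩ := H.meet i (a + 2) h1 h2 (by omega) (by omega) c2 (by
    have := H.my (a + 2) (by omega) (by omega)
    omega)
  have lc := H.leny (a + 2) (by omega) (by omega) f0.le f1.le
  have sc := H.leny_short (a + 2) (by omega) (by omega) f0.le f1.le
  have nbc := H.not_both (a + 1) (by omega) (by omega)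
  rw [show a + 1 + 1 = a + 2 by ring] at nbc
  rw [show a + 2 + 1 = a + 3 by ring] at f1 lc sc
  by_cases c3 : x (i + 1) ≤ y (a + 3)
  · -- three pieces
    have hb := H.hB' i a (by omega) (by omega) ha0 (by omega)
    -- one of the end overlaps is small
    have hsm : y (a + 1) - x i < β ∨ x (i + 1) - y (a + 2) < β := by
      by_contra hn
      push Not at hn
      exact hb (by omega) (by omega) (by omega)
    rcases hsm with hsm | hsm
    · -- big ones: `a + 1`, `a + 2`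
      by_cases l1 : cy (a + 1) = 0
      · by_cases l2 : cy (a + 2) = 0
        · have := sb l1
          have := sc l2
          omega
        · have := sb l1
          refine ⟨a + 2, by omega, by omega, f0, ?_, l2, by omega, ?_⟩
          · rw [show a + 2 + 1 = a + 3 by ring]
            exact f1
          · rw [show a + 2 + 1 = a + 3 by ring]
            omega
      · have l2 := nbc l1
        have := sc l2
        refine ⟨a + 1, by omega, by omega, d0, ?_, l1, by omega, ?_⟩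
        · rw [show a + 1 + 1 = a + 2 by ring]
          exact d1
        · rw [show a + 1 + 1 = a + 2 by ring]
          omega
    · -- big ones: `a`, `a + 1`
      by_cases l0 : cy a = 0
      · by_cases l1 : cy (a + 1) = 0
        · have := sa l0
          have := sb l1
          omega
        · have := sa l0
          refine ⟨a + 1, by omega, by omega, d0, ?_, l1, by omega, ?_⟩
          · rw [show a + 1 + 1 = a + 2 by ring]
            exact d1
          · rw [show a + 1 + 1 = a + 2 by ring]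
            omega
      · have l1 := nab l0
        have := sb l1
        exact ⟨a, b2, b3, b0, b1, l0, by omega, by omega⟩
  push Not at c3
  -- piece `a + 3`
  obtain ⟨g0, g1, g2, g3⟩ := H.meet i (a + 3) h1 h2 (by omega) (by omega) c3 (by
    have := H.my (a + 3) (by omega) (by omega)
    omega)
  have ld := H.leny (a + 3) (by omega) (by omega) g0.le g1.le
  rw [show a + 3 + 1 = a + 4 by ring] at g1 ld
  have hb0 : y (a + 1) - x i < β := by
    by_contra hn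
    push Not at hn
    exact H.hB' i a (by omega) (by omega) ha0 (by omega) (by omega) (by omega) (by omega)
  have hb1 := H.hB' i (a + 1) (by omega) (by omega) (by omega) (by omega)
  rw [show a + 1 + 1 = a + 2 by ring, show a + 1 + 2 = a + 3 by ring,
    show a + 1 + 3 = a + 4 by ring] at hb1
  have hb2 : x (i + 1) - y (a + 3) < β := by
    by_contra hn
    push Not at hn
    exact hb1 (by omega) (by omega) (by omega)
  by_cases l1 : cy (a + 1) = 0
  · by_cases l2 : cy (a + 2) = 0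
    · have := sb l1
      have := sc l2
      omega
    · have := sb l1
      refine ⟨a + 2, by omega, by omega, f0, ?_, l2, by omega, ?_⟩
      · rw [show a + 2 + 1 = a + 3 by ring]
        exact f1
      · rw [show a + 2 + 1 = a + 3 by ring]
        omega
  · have l2 := nbc l1
    have := sc l2
    refine ⟨a + 1, by omega, by omega, d0, ?_, l1, by omega, ?_⟩
    · rw [show a + 1 + 1 = a + 2 by ring]
      exact d1
    · rw [show a + 1 + 1 = a + 2 by ring]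
      omega

/-- (3) the matched piece -/
theorem matched (H : match_H Λ β ell x y cx cy i₀ i₁ j₀ j₁ r s) (i : ℤ) (h1 : i₀ + 3 ≤ i)
    (h2 : i + 3 ≤ i₁) (hc : cx i ≠ 0) :
    ∃ j, j₀ < j ∧ j < j₁ ∧ x i₀ < y j ∧ y (j + 1) < x (i₁ + 1) ∧ cy j = cx i ∧
      y j ≤ x i + Λ + 2 * β ∧ x i - Λ - 2 * β ≤ y j ∧
      x (i + 1) - Λ - 2 * β ≤ y (j + 1) ∧ y (j + 1) ≤ x (i + 1) + Λ + 2 * β := by
  have hβ := H.hβ
  have hΛ := H.hΛ
  obtain ⟨j, k0, k1, k2, k3, k4, k5, k6⟩ := H.cover i h1 h2 hc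
  have hlong := H.lenx_long i (by omega) (by omega) hc
  have hr := (H.pr i (by omega) (by omega)).1 hc
  have s1 : cx (i + 1) = 0 := by
    by_contra hn
    have := (H.pr (i + 1) (by omega) (by omega)).1 hn
    omega
  have s2 : cx (i - 1) = 0 := by
    by_contra hn
    have := (H.pr (i - 1) (by omega) (by omega)).1 hn
    omega
  have m1 := H.lenx_short (i + 1) (by omega) (by omega) s1
  have m2 := H.lenx_short (i - 1) (by omega) (by omega) s2
  have n1 := H.lenx (i + 1) (by omega) (by omega)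
  have n2 := H.lenx (i + 2) (by omega) (by omega)
  have n3 := H.lenx (i - 1) (by omega) (by omega)
  have n4 := H.lenx (i - 2) (by omega) (by omega)
  rw [show i + 1 + 1 = i + 2 by ring] at m1 n1
  rw [show i + 2 + 1 = i + 3 by ring] at n2
  rw [show i - 1 + 1 = i by ring] at m2 n3
  rw [show i - 2 + 1 = i - 1 by ring] at n4
  have U1 : y (j + 1) ≤ x (i + 1) + Λ + 2 * β := by
    by_contra hn
    exact H.hA' i j (by omega) (by omega) (by omega) (by omega) (by omega) (by omega) (by omega)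
  have U2 : x i - Λ - 2 * β ≤ y j := by
    by_contra hn
    refine H.hA' (i - 2) j (by omega) (by omega) (by omega) (by omega) ?_ ?_ ?_
    · rw [show i - 2 + 1 = i - 1 by ring]
      omega
    · rw [show i - 2 + 1 = i - 1 by ring, show i - 2 + 2 = i by ring]
      omega
    · rw [show i - 2 + 2 = i by ring, show i - 2 + 3 = i + 1 by ring]
      omega
  refine ⟨j, k0, k1, k2, k3, ?_, k5, U2, k6, U1⟩
  have lx := H.lx i (by omega) (by omega)
  have ly := H.ly j k0.le k1.le k2.le k3.le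
  have ex := H.ell_long (cx i) (H.cx4 i) hc
  have ey := H.ell_long (cy j) (H.cy4 j) k4
  by_contra hne
  rcases Nat.lt_or_gt_of_ne hne with h | h
  · have := H.e1 (cy j) (cx i) h (H.cx4 i)
    omega
  · have := H.e1 (cx i) (cy j) h (H.cy4 j)
    omega

/-- (4) the next one -/
theorem next (H : match_H Λ β ell x y cx cy i₀ i₁ j₀ j₁ r s) (i j : ℤ) (h1 : i₀ + 3 ≤ i)
    (h2 : i + 6 ≤ i₁) (hc : cx i ≠ 0)
    (hj : j₀ < j ∧ j < j₁ ∧ x i₀ < y j ∧ y (j + 1) < x (i₁ + 1) ∧ cy j = cx i ∧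
      y j ≤ x i + Λ + 2 * β ∧ x i - Λ - 2 * β ≤ y j ∧
      x (i + 1) - Λ - 2 * β ≤ y (j + 1) ∧ y (j + 1) ≤ x (i + 1) + Λ + 2 * β) :
    cx (i + 3) ≠ 0 ∧
    (j₀ < j + 3 ∧ j + 3 < j₁ ∧ x i₀ < y (j + 3) ∧ y (j + 3 + 1) < x (i₁ + 1) ∧
      cy (j + 3) = cx (i + 3) ∧
      y (j + 3) ≤ x (i + 3) + Λ + 2 * β ∧ x (i + 3) - Λ - 2 * β ≤ y (j + 3) ∧
      x (i + 3 + 1) - Λ - 2 * β ≤ y (j + 3 + 1) ∧
      y (j + 3 + 1) ≤ x (i + 3 + 1) + Λ + 2 * β) := by
  have hβ := H.hβ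
  have hΛ := H.hΛ
  have hr := (H.pr i (by omega) (by omega)).1 hc
  have hc3 : cx (i + 3) ≠ 0 := by
    rw [H.pr (i + 3) (by omega) (by omega)]
    omega
  refine ⟨hc3, ?_⟩
  obtain ⟨j', hj'⟩ := H.matched (i + 3) (by omega) (by omega) hc3
  obtain ⟨p0, p1, p2, p3, p4, p5, p6, p7, p8⟩ := hj
  have hj'2 := hj'
  obtain ⟨q0, q1, q2, q3, q4, q5, q6, q7, q8⟩ := hj'
  have hlong := H.lenx_long i (by omega) (by omega) hc
  have s1 : cx (i + 1) = 0 := by
    by_contra hn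
    have := (H.pr (i + 1) (by omega) (by omega)).1 hn
    omega
  have s2 : cx (i + 2) = 0 := by
    by_contra hn
    have := (H.pr (i + 2) (by omega) (by omega)).1 hn
    omega
  have m1 := H.lenx_short (i + 1) (by omega) (by omega) s1
  have m2 := H.lenx_short (i + 2) (by omega) (by omega) s2
  have n1 := H.lenx (i + 1) (by omega) (by omega)
  have n2 := H.lenx (i + 2) (by omega) (by omega)
  rw [show i + 1 + 1 = i + 2 by ring] at m1 n1
  rw [show i + 2 + 1 = i + 3 by ring] at m2 n2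
  have hlt : j < j' := by
    by_contra hn
    have := H.ymono' j' j (by omega) (by omega) (by omega)
    omega
  have d1 := (H.ps j p0.le p1.le).1 (by rw [p4]; exact hc)
  have d2 := (H.ps j' q0.le q1.le).1 (by rw [q4]; exact hc3)
  have hj3 : j' = j + 3 := by
    by_contra hne
    have h6 : j + 6 ≤ j' := by omega
    have hcy : cy (j + 3) ≠ 0 := by
      rw [H.ps (j + 3) (by omega) (by omega)]
      omega
    have w1 := H.ymono' j (j + 3) (by omega) (by omega) (by omega)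
    have w2 := H.ymono' (j + 1) (j + 3) (by omega) (by omega) (by omega)
    have w3 := H.ymono' (j + 3 + 1) j' (by omega) (by omega) (by omega)
    have w4 := H.ymono' j' (j' + 1) (by omega) (by omega) (by omega)
    have := H.leny_long (j + 3) (by omega) (by omega) (by omega) (by omega) hcy
    omega
  rw [← hj3]
  exact hj'2

end match_H

theorem st_MATCH : ST_MATCH := by
  intro Λ β ell x y cx cy i₀ i₁ j₀ j₁ r s hβ hΛ e0 e1 cx4 cy4 pr ps lx my ly a0 a1 a2 hA hB i hi hc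
  have H : match_H Λ β ell x y cx cy i₀ i₁ j₀ j₁ r s :=
    ⟨hβ, hΛ, e0, e1, cx4, cy4, pr, ps, lx, my, ly, a0, a1, a2, hA, hB⟩
  by_cases hi3 : i + 3 ≤ i₁
  · obtain ⟨j, hj⟩ := H.matched i hi hi3 hc
    refine ⟨j, ?_⟩
    have key : ∀ g : ℕ, i + 3 * (g : ℤ) + 3 ≤ i₁ → cx (i + 3 * g) ≠ 0 ∧
        (j₀ < j + 3 * g ∧ j + 3 * g < j₁ ∧ x i₀ < y (j + 3 * g) ∧
        y (j + 3 * g + 1) < x (i₁ + 1) ∧ cy (j + 3 * g) = cx (i + 3 * g) ∧
        y (j + 3 * g) ≤ x (i + 3 * g) + Λ + 2 * β ∧ x (i + 3 * g) - Λ - 2 * β ≤ y (j + 3 * g) ∧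
        x (i + 3 * g + 1) - Λ - 2 * β ≤ y (j + 3 * g + 1) ∧
        y (j + 3 * g + 1) ≤ x (i + 3 * g + 1) + Λ + 2 * β) := by
      intro g
      induction g with
      | zero =>
        intro _
        simp only [Nat.cast_zero, mul_zero, add_zero]
        exact ⟨hc, hj⟩
      | succ g ih =>
        intro hg
        push_cast at hg
        obtain ⟨c1, c2⟩ := ih (by omega)
        have := H.next (i + 3 * g) (j + 3 * g) (by omega) (by omega) c1 c2
        rw [show i + 3 * ((g + 1 : ℕ) : ℤ) = i + 3 * g + 3 by push_cast; ring,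
          show j + 3 * ((g + 1 : ℕ) : ℤ) = j + 3 * g + 3 by push_cast; ring]
        exact this
    intro g hg hg2
    obtain ⟨n, rfl⟩ := Int.eq_ofNat_of_zero_le hg
    obtain ⟨c1, c2, c3, -, -, c4, c5, c6, -, -⟩ := key n hg2
    refine ⟨c2, c3, c4, ?_⟩
    rw [abs_le]
    constructor <;> omega
  · exact ⟨0, fun g hg hg2 => by omega⟩

end Pool.Agent.Helper82.EN
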